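import Mathlib

/-!
# Blown up symmetric groups inside `Perm (Fin N)`
-/

namespace Q6.ClassTr

open Equiv Equiv.Perm
open scoped Pointwise

theorem aux_div {m q c : ℕ} (hc : c < m) : (m * q + c) / m = q := by
  rw [Nat.mul_add_div (by omega), Nat.div_eq_of_lt hc, add_zero]

theorem aux_mod {m q c : ℕ} (hc : c < m) : (m * q + c) % m = c := by
  rw [Nat.mul_add_mod, Nat.mod_eq_of_lt hc]

theorem aux_lt {m N x c : ℕ} (h : m ∣ N) (hx : x < N) (hc : c < m) : m * (x / m) + c < N := by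
  obtain ⟨q, rfl⟩ := h
  have h1 : x / m < q := Nat.div_lt_of_lt_mul hx
  calc m * (x / m) + c < m * (x / m) + m := by omega
    _ = m * (x / m + 1) := by ring
    _ ≤ m * q := Nat.mul_le_mul_left m h1

/-- The blow-up of a permutation of `Fin m` to `Fin N`. -/
def bl {m N : ℕ} (hm : 0 < m) (h : m ∣ N) (σ : Perm (Fin m)) : Perm (Fin N) where
  toFun x := ⟨m * (x / m) + σ ⟨x % m, Nat.mod_lt _ hm⟩, aux_lt h x.2 (Fin.is_lt _)⟩
  invFun x := ⟨m * (x / m) + σ.symm ⟨x % m, Nat.mod_lt _ hm⟩, aux_lt h x.2 (Fin.is_lt _)⟩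
  left_inv x := by
    apply Fin.ext
    show m * ((m * (x / m) + σ ⟨x % m, Nat.mod_lt _ hm⟩) / m) +
      σ.symm ⟨(m * (x / m) + σ ⟨x % m, Nat.mod_lt _ hm⟩) % m, _⟩ = (x : ℕ)
    simp only [aux_div (Fin.is_lt (σ ⟨x % m, Nat.mod_lt _ hm⟩)),
      aux_mod (Fin.is_lt (σ ⟨x % m, Nat.mod_lt _ hm⟩)), Fin.eta, Equiv.symm_apply_apply]
    exact Nat.div_add_mod _ _
  right_inv x := by
    apply Fin.ext
    show m * ((m * (x / m) + σ.symm ⟨x % m, Nat.mod_lt _ hm⟩) / m) +
      σ ⟨(m * (x / m) + σ.symm ⟨x % m, Nat.mod_lt _ hm⟩) % m, _⟩ = (x : ℕ)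
    simp only [aux_div (Fin.is_lt (σ.symm ⟨x % m, Nat.mod_lt _ hm⟩)),
      aux_mod (Fin.is_lt (σ.symm ⟨x % m, Nat.mod_lt _ hm⟩)), Fin.eta, Equiv.apply_symm_apply]
    exact Nat.div_add_mod _ _

theorem bl_val {m N : ℕ} (hm : 0 < m) (h : m ∣ N) (σ : Perm (Fin m)) (x : Fin N) :
    (bl hm h σ x : ℕ) = m * (x / m) + σ ⟨x % m, Nat.mod_lt _ hm⟩ := rfl

theorem bl_div {m N : ℕ} (hm : 0 < m) (h : m ∣ N) (σ : Perm (Fin m)) (x : Fin N) :
    (bl hm h σ x : ℕ) / m = x / m := by
  rw [bl_val, aux_div (Fin.is_lt _)]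

theorem bl_mod {m N : ℕ} (hm : 0 < m) (h : m ∣ N) (σ : Perm (Fin m)) (x : Fin N) :
    (bl hm h σ x : ℕ) % m = σ ⟨x % m, Nat.mod_lt _ hm⟩ := by
  rw [bl_val, aux_mod (Fin.is_lt _)]

/-- The sign of the blow-up. -/
theorem sign_bl {m N : ℕ} (hm : 0 < m) (h : m ∣ N) (σ : Perm (Fin m)) :
    sign (bl hm h σ) = (sign σ) ^ (N / m) := by
  have h0 := h
  obtain ⟨q, hq⟩ := h0
  have hq' : N = q * m := by rw [hq, mul_comm]
  subst hq'
  have h1 : bl hm h σ = finProdFinEquiv.permCongr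
      (prodCongrRight (fun _ : Fin q => σ)) := by
    apply Equiv.ext
    intro x
    apply Fin.ext
    rw [bl_val]
    obtain ⟨⟨a, b⟩, rfl⟩ := finProdFinEquiv.surjective x
    rw [permCongr_apply, symm_apply_apply, prodCongrRight_apply]
    show m * ((b + m * a : ℕ) / m) + σ ⟨(b + m * a : ℕ) % m, _⟩ = (σ b + m * a : ℕ)
    have e1 : (b + m * a : ℕ) / m = a := by rw [add_comm, aux_div b.2]
    have e2 : (b + m * a : ℕ) % m = b := by rw [add_comm, aux_mod b.2]
    simp only [e1, e2, Fin.eta]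
    ring
  rw [h1, sign_permCongr, sign_prodCongrRight, Finset.prod_const, Finset.card_univ,
    Fintype.card_fin, Nat.mul_div_cancel _ hm]

section

variable {N : ℕ} {G : Subgroup (Perm (Fin N))} {M k : ℕ}

/-- `G` contains the blow-up of the symmetric group of degree `m`. -/
def Has (G : Subgroup (Perm (Fin N))) (m : ℕ) : Prop :=
  ∃ (hm : 0 < m) (h : m ∣ N), ∀ σ, bl hm h σ ∈ G

/-- An element of `G` mapping one point to another point of the same level. -/
theorem Has.move {m : ℕ} (H : Has G m) (x z : Fin N) (hxz : (x : ℕ) / m = z / m) :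
    ∃ g ∈ G, g x = z ∧ ∀ y : Fin N, (y : ℕ) % m ≠ x % m → (y : ℕ) % m ≠ z % m → g y = y := by
  obtain ⟨hm, h, hG⟩ := H
  refine ⟨_, hG (swap ⟨x % m, Nat.mod_lt _ hm⟩ ⟨z % m, Nat.mod_lt _ hm⟩), ?_, ?_⟩
  · apply Fin.ext
    rw [bl_val, swap_apply_left, hxz]
    exact Nat.div_add_mod _ _
  · intro y h1 h2
    apply Fin.ext
    rw [bl_val, swap_apply_of_ne_of_ne]
    · exact Nat.div_add_mod _ _
    · intro h3
      exact h1 (congrArg Fin.val h3)
    · intro h3
      exact h2 (congrArg Fin.val h3)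

theorem block_map {B : Set (Fin N)} (hB : MulAction.IsBlock G B) {g : Perm (Fin N)} (hg : g ∈ G)
    {y : Fin N} (hy : y ∈ B) (hgy : g y = y) {x : Fin N} (hx : x ∈ B) : g x ∈ B := by
  have h1 : ((⟨g, hg⟩ : G) • B) = ((1 : G) • B) := by
    by_contra hne
    have h2 := hB hne
    rw [Set.disjoint_left] at h2
    apply h2 (a := y)
    · exact ⟨y, hy, hgy⟩
    · rw [one_smul]
      exact hy
  rw [one_smul] at h1
  rw [← h1]
  exact ⟨x, hx, rfl⟩

/-- A block with two points of different residues contains the level of each of them. -/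
theorem Has.level {m : ℕ} (H : Has G m) (h3 : 3 ≤ m) {B : Set (Fin N)}
    (hB : MulAction.IsBlock G B) {x y : Fin N} (hx : x ∈ B) (hy : y ∈ B)
    (hxy : (x : ℕ) % m ≠ y % m) {z : Fin N} (hz : (x : ℕ) / m = z / m) : z ∈ B := by
  have key : ∀ x y z : Fin N, x ∈ B → y ∈ B → (x : ℕ) % m ≠ y % m → (x : ℕ) / m = z / m →
      (z : ℕ) % m ≠ y % m → z ∈ B := by
    intro x y z hx hy hxy hz hzy
    obtain ⟨g, hg, h1, h2⟩ := H.move x z hz
    rw [← h1]
    exact block_map hB hg hy (h2 y (Ne.symm hxy) (Ne.symm hzy)) hx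
  by_cases hzy : (z : ℕ) % m = y % m
  · -- an auxiliary residue
    obtain ⟨hm, hdvd, hG⟩ := H
    obtain ⟨c, hcm, hc1, hc2⟩ : ∃ c, c < m ∧ c ≠ (x : ℕ) % m ∧ c ≠ (y : ℕ) % m := by
      by_contra hcon
      push Not at hcon
      have c0 := hcon 0 (by omega)
      have c1 := hcon 1 (by omega)
      have c2 := hcon 2 (by omega)
      omega
    let z' : Fin N := ⟨m * (x / m) + c, aux_lt hdvd x.2 hcm⟩
    have hz'1 : (z' : ℕ) / m = x / m := aux_div hcm
    have hz'2 : (z' : ℕ) % m = c := aux_mod hcm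
    have hz' : z' ∈ B := key x y z' hx hy hxy hz'1.symm (by rw [hz'2]; exact hc2)
    refine key z' x z hz' hx (by rw [hz'2]; exact hc1) (by rw [hz'1]; exact hz) ?_
    rw [hzy]
    exact Ne.symm hxy
  · exact key x y z hx hy hxy hz hzy

theorem succ_level {m z : ℕ} (hm : 0 < m) (h : ¬ m ∣ z + 1) : (z + 1) / m = z / m := by
  have h1 := Nat.div_add_mod z m
  have h2 := Nat.mod_lt z hm
  have h3 : z % m + 1 ≠ m := by
    intro h3
    apply h
    refine ⟨z / m + 1, ?_⟩
    rw [mul_add, mul_one]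
    omega
  have h4 : z + 1 = m * (z / m) + (z % m + 1) := by omega
  rw [h4, aux_div (by omega)]

theorem succ_mod_ne {m v : ℕ} (hm : 2 ≤ m) : v % m ≠ (v + 1) % m := by
  intro h
  have h1 : (v + 1) % m = (v % m + 1) % m := by rw [Nat.mod_add_mod]
  have h2 := Nat.mod_lt v (by omega : 0 < m)
  by_cases h3 : v % m + 1 < m
  · rw [h1, Nat.mod_eq_of_lt h3] at h
    omega
  · have h4 : v % m + 1 = m := by omega
    rw [h1, h4, Nat.mod_self] at h
    omega

theorem preprimitive (HM : Has G M) (Hk : Has G k) (hM : 3 ≤ M) (hk : 3 ≤ k)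
    (hN : N = Nat.lcm M k) : MulAction.IsPreprimitive G (Fin N) := by
  have hnd : ∀ z, z + 1 < N → ¬ M ∣ z + 1 ∨ ¬ k ∣ z + 1 := by
    intro z hz
    by_contra hcon
    push Not at hcon
    have h1 := Nat.lcm_dvd hcon.1 hcon.2
    rw [← hN] at h1
    exact absurd (Nat.le_of_dvd (Nat.succ_pos _) h1) (by omega)
  have hNpos : 0 < N := by
    rw [hN]
    exact Nat.lcm_pos (by omega) (by omega)
  have htrans : MulAction.IsPretransitive G (Fin N) := by
    have h0 : ∀ (n : ℕ) (hn : n < N), ∃ g ∈ G, g ⟨0, hNpos⟩ = (⟨n, hn⟩ : Fin N) := by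
      intro n
      induction n with
      | zero => exact fun _ => ⟨1, G.one_mem, rfl⟩
      | succ n ih =>
        intro hn
        obtain ⟨g, hg, h1⟩ := ih (by omega)
        have h2 : ∃ g' ∈ G, g' (⟨n, by omega⟩ : Fin N) = ⟨n + 1, hn⟩ := by
          rcases hnd n hn with h | h
          · obtain ⟨g', hg', h3, -⟩ := HM.move ⟨n, by omega⟩ ⟨n + 1, hn⟩
              (succ_level (by omega) h).symm
            exact ⟨g', hg', h3⟩
          · obtain ⟨g', hg', h3, -⟩ := Hk.move ⟨n, by omega⟩ ⟨n + 1, hn⟩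
              (succ_level (by omega) h).symm
            exact ⟨g', hg', h3⟩
        obtain ⟨g', hg', h3⟩ := h2
        refine ⟨g' * g, G.mul_mem hg' hg, ?_⟩
        rw [mul_apply, h1, h3]
    constructor
    intro x y
    obtain ⟨g, hg, h1⟩ := h0 x x.2
    obtain ⟨g', hg', h2⟩ := h0 y y.2
    refine ⟨⟨g' * g⁻¹, G.mul_mem hg' (G.inv_mem hg)⟩, ?_⟩
    show g' (g⁻¹ x) = y
    have h3 : g⁻¹ x = ⟨0, hNpos⟩ := by
      rw [inv_eq_iff_eq]
      exact h1.symm
    rw [h3, h2]
  refine { toIsPretransitive := htrans, isTrivialBlock_of_isBlock := ?_ }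
  intro B hB
  by_cases hsub : B.Subsingleton
  · exact Or.inl hsub
  right
  rw [Set.not_subsingleton_iff] at hsub
  obtain ⟨x, hx, y, hy, hxy⟩ := hsub
  -- two consecutive elements
  have hcons : ∃ v, ∃ (h1 : v < N) (h2 : v + 1 < N), (⟨v, h1⟩ : Fin N) ∈ B ∧
      (⟨v + 1, h2⟩ : Fin N) ∈ B := by
    have key : ∀ m, 3 ≤ m → Has G m → (x : ℕ) % m ≠ y % m → ∃ v, ∃ (h1 : v < N) (h2 : v + 1 < N),
        (⟨v, h1⟩ : Fin N) ∈ B ∧ (⟨v + 1, h2⟩ : Fin N) ∈ B := by
      intro m hm H hne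
      have hd := H.2.1
      have h0 : m * (x / m) + 0 < N := aux_lt hd x.2 (by omega)
      have h1 : m * (x / m) + 1 < N := aux_lt hd x.2 (by omega)
      refine ⟨m * (x / m) + 0, h0, h1, ?_, ?_⟩
      · exact H.level hm hB hx hy hne (aux_div (by omega : 0 < m)).symm
      · exact H.level hm hB hx hy hne (aux_div (by omega : 1 < m)).symm
    by_cases hM' : (x : ℕ) % M = y % M
    · by_cases hk' : (x : ℕ) % k = y % k
      · exfalso
        apply hxy
        apply Fin.ext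
        have e1 : (x : ℕ) ≡ y [MOD M] := hM'
        have e2 : (x : ℕ) ≡ y [MOD k] := hk'
        have e3 : ∀ L, L = Nat.lcm M k → (x : ℕ) ≡ y [MOD L] := by
          rintro L rfl
          exact Nat.mod_lcm e1 e2
        exact Nat.ModEq.eq_of_lt_of_lt (e3 N hN) x.2 y.2
      · exact key k hk Hk hk'
    · exact key M hM HM hM'
  obtain ⟨v, hv1, hv2, hvB, hvB'⟩ := hcons
  have hdiff : ∀ m, 2 ≤ m → ∀ z : Fin N, ∃ w ∈ B, (z : ℕ) % m ≠ (w : Fin N) % m := by
    intro m hm z
    by_cases h : (z : ℕ) % m = v % m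
    · exact ⟨_, hvB', by rw [h]; exact succ_mod_ne hm⟩
    · exact ⟨_, hvB, h⟩
  have hstep : ∀ (z : ℕ) (h1 : z < N) (h2 : z + 1 < N),
      ((⟨z, h1⟩ : Fin N) ∈ B ↔ (⟨z + 1, h2⟩ : Fin N) ∈ B) := by
    intro z h1 h2
    have key : ∀ m, 3 ≤ m → Has G m → ¬ m ∣ z + 1 →
        ((⟨z, h1⟩ : Fin N) ∈ B ↔ (⟨z + 1, h2⟩ : Fin N) ∈ B) := by
      intro m hm H hnd
      have hl := succ_level (by omega : 0 < m) hnd
      constructor
      · intro h
        obtain ⟨w, hw, hne⟩ := hdiff m (by omega) ⟨z, h1⟩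
        exact H.level hm hB h hw hne hl.symm
      · intro h
        obtain ⟨w, hw, hne⟩ := hdiff m (by omega) ⟨z + 1, h2⟩
        exact H.level hm hB h hw hne hl
    rcases hnd z h2 with h | h
    · exact key M hM HM h
    · exact key k hk Hk h
  have hall : ∀ (z : ℕ) (h1 : z < N), (⟨z, h1⟩ : Fin N) ∈ B ↔ (⟨0, hNpos⟩ : Fin N) ∈ B := by
    intro z
    induction z with
    | zero => exact fun _ => Iff.rfl
    | succ z ih =>
      intro h1
      rw [← hstep z (by omega) h1]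
      exact ih (by omega)
  rw [Set.eq_univ_iff_forall]
  intro z
  rw [← Fin.eta z z.2, hall z z.2, ← hall v hv1]
  exact hvB

/-- Two blown up symmetric groups and a 3-cycle generate everything. -/
theorem eq_top (HM : Has G M) (Hk : Has G k) (hM : 3 ≤ M) (hk : 3 ≤ k)
    (hN : N = Nat.lcm M k) (h3 : ∃ g ∈ G, IsThreeCycle g) : G = ⊤ := by
  obtain ⟨g, hg, hg3⟩ := h3
  have hA := alternatingGroup_le_of_isPreprimitive_of_isThreeCycle_mem
    (preprimitive HM Hk hM hk hN) hg3 hg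
  -- an odd element
  have hodd : ∃ g ∈ G, sign g = -1 := by
    have key : ∀ m, 3 ≤ m → Has G m → Odd (N / m) → ∃ g ∈ G, sign g = -1 := by
      intro m hm H ho
      obtain ⟨hm0, hd, hG⟩ := H
      refine ⟨_, hG (swap ⟨0, by omega⟩ ⟨1, by omega⟩), ?_⟩
      rw [sign_bl, sign_swap, ho.neg_one_pow]
      intro h
      exact absurd (congrArg Fin.val h) (by norm_num)
    have hcop : Nat.Coprime (N / M) (N / k) := by
      have hg : 0 < Nat.gcd M k := Nat.gcd_pos_of_pos_left _ (by omega)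
      have e1 : N / M = k / Nat.gcd M k := by
        rw [hN, Nat.lcm, Nat.mul_div_assoc _ (Nat.gcd_dvd_right M k)]
        exact Nat.mul_div_cancel_left _ (by omega)
      have e2 : N / k = M / Nat.gcd M k := by
        rw [hN, Nat.lcm_comm, Nat.lcm, Nat.gcd_comm k M,
          Nat.mul_div_assoc _ (Nat.gcd_dvd_left M k)]
        exact Nat.mul_div_cancel_left _ (by omega)
      rw [e1, e2]
      exact (Nat.coprime_div_gcd_div_gcd hg).symm
    rcases Nat.even_or_odd (N / M) with h | h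
    · refine key k hk Hk ?_
      rw [← Nat.not_even_iff_odd]
      intro h'
      have := Nat.dvd_gcd h.two_dvd h'.two_dvd
      rw [hcop] at this
      omega
    · exact key M hM HM h
  obtain ⟨o, ho, hso⟩ := hodd
  rw [eq_top_iff]
  intro s _
  rcases Int.units_eq_one_or (sign s) with h | h
  · exact hA (mem_alternatingGroup.2 h)
  · have h1 : o * s ∈ G := hA (mem_alternatingGroup.2 (by rw [Perm.sign_mul, hso, h]; rfl))
    have h2 := G.mul_mem (G.inv_mem ho) h1
    rwa [inv_mul_cancel_left] at h2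

/-- A 3-cycle in the group generated by two blown up symmetric groups. -/
theorem exists_three (HM : Has G M) (Hk : Has G k) (hM : k + 2 ≤ M) (hk : 4 ≤ k)
    (hN : N = Nat.lcm M k) : ∃ g ∈ G, IsThreeCycle g := by
  obtain ⟨hM0, hMd, hMG⟩ := HM
  obtain ⟨hk0, hkd, hkG⟩ := Hk
  have hNM : M ≤ N := by
    rw [hN]
    exact Nat.le_of_dvd (Nat.lcm_pos hM0 hk0) (Nat.dvd_lcm_left _ _)
  -- the three involutions
  set t : Perm (Fin N) := bl hM0 hMd (swap ⟨0, by omega⟩ ⟨k, by omega⟩) with ht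
  set s : Perm (Fin N) := bl hk0 hkd (swap ⟨0, by omega⟩ ⟨1, by omega⟩) with hs
  set t' : Perm (Fin N) := bl hM0 hMd (swap ⟨1, by omega⟩ ⟨2, by omega⟩) with ht'
  have htG : t ∈ G := hMG _
  have hsG : s ∈ G := hkG _
  have ht'G : t' ∈ G := hMG _
  -- values
  have vt : ∀ x : Fin N, (x : ℕ) % M ≠ 0 → (x : ℕ) % M ≠ k → t x = x := by
    intro x h1 h2
    apply Fin.ext
    rw [ht, bl_val, swap_apply_of_ne_of_ne]
    · exact Nat.div_add_mod _ _
    · exact fun h => h1 (congrArg Fin.val h)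
    · exact fun h => h2 (congrArg Fin.val h)
  have vt0 : ∀ x : Fin N, (x : ℕ) % M = 0 → (t x : ℕ) = x + k := by
    intro x h1
    rw [ht, bl_val]
    have : (⟨(x : ℕ) % M, Nat.mod_lt _ hM0⟩ : Fin M) = ⟨0, by omega⟩ := Fin.ext h1
    rw [this, swap_apply_left]
    have := Nat.div_add_mod (x : ℕ) M
    show M * ((x : ℕ) / M) + k = x + k
    omega
  have vs : ∀ x : Fin N, (x : ℕ) % k ≠ 0 → (x : ℕ) % k ≠ 1 → s x = x := by
    intro x h1 h2
    apply Fin.ext
    rw [hs, bl_val, swap_apply_of_ne_of_ne]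
    · exact Nat.div_add_mod _ _
    · exact fun h => h1 (congrArg Fin.val h)
    · exact fun h => h2 (congrArg Fin.val h)
  have vs0 : ∀ x : Fin N, (x : ℕ) % k = 0 → (s x : ℕ) = x + 1 := by
    intro x h1
    rw [hs, bl_val]
    have : (⟨(x : ℕ) % k, Nat.mod_lt _ hk0⟩ : Fin k) = ⟨0, by omega⟩ := Fin.ext h1
    rw [this, swap_apply_left]
    have := Nat.div_add_mod (x : ℕ) k
    show k * ((x : ℕ) / k) + 1 = x + 1
    omega
  have vs1 : ∀ x : Fin N, (x : ℕ) % k = 1 → (s x : ℕ) + 1 = x := by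
    intro x h1
    rw [hs, bl_val]
    have : (⟨(x : ℕ) % k, Nat.mod_lt _ hk0⟩ : Fin k) = ⟨1, by omega⟩ := Fin.ext h1
    rw [this, swap_apply_right]
    have := Nat.div_add_mod (x : ℕ) k
    show k * ((x : ℕ) / k) + 0 + 1 = x
    omega
  have blinv : ∀ {m : ℕ} (hm : 0 < m) (hd : m ∣ N) (a b : Fin m) (x : Fin N),
      bl hm hd (swap a b) (bl hm hd (swap a b) x) = x := by
    intro m hm hd a b x
    apply Fin.ext
    rw [bl_val, bl_div]
    have e : (⟨(bl hm hd (swap a b) x : ℕ) % m, Nat.mod_lt _ hm⟩ : Fin m) =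
        swap a b ⟨x % m, Nat.mod_lt _ hm⟩ := Fin.ext (bl_mod hm hd _ x)
    rw [e, swap_apply_self]
    exact Nat.div_add_mod _ _
  have ss : ∀ x, s (s x) = x := fun x => blinv hk0 hkd _ _ x
  have tt : ∀ x, t (t x) = x := fun x => blinv hM0 hMd _ _ x
  have tt' : ∀ x, t' (t' x) = x := fun x => blinv hM0 hMd _ _ x
  set u : Perm (Fin N) := t * s * t * s with hu
  have huG : u ∈ G := G.mul_mem (G.mul_mem (G.mul_mem htG hsG) htG) hsG
  have hux : ∀ x, u x = t (s (t (s x))) := fun x => rfl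
  -- the image of the point 1
  let p0 : Fin N := ⟨0, by omega⟩
  let p1 : Fin N := ⟨1, by omega⟩
  let p2 : Fin N := ⟨2, by omega⟩
  let pk : Fin N := ⟨k, by omega⟩
  let pk1 : Fin N := ⟨k + 1, by omega⟩
  have u1 : u p1 = pk1 := by
    rw [hux]
    have e1 : s p1 = p0 := by
      apply Fin.ext
      have := vs1 p1 (Nat.mod_eq_of_lt (by omega : 1 < k))
      have h1 : (p1 : ℕ) = 1 := rfl
      show (s p1 : ℕ) = 0
      omega
    have e2 : t p0 = pk := by
      apply Fin.ext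
      have := vt0 p0 (Nat.zero_mod _)
      have h1 : (p0 : ℕ) = 0 := rfl
      show (t p0 : ℕ) = k
      omega
    have e3 : s pk = pk1 := by
      apply Fin.ext
      exact vs0 pk (Nat.mod_self k)
    have e4 : t pk1 = pk1 := by
      have h1 : (pk1 : ℕ) % M = k + 1 := Nat.mod_eq_of_lt (by omega : k + 1 < M)
      apply vt
      · rw [h1]; omega
      · rw [h1]; omega
    rw [e1, e2, e3, e4]
  -- fixed points of u
  have ufix : ∀ x : Fin N, ((x : ℕ) % M = 1 ∨ (x : ℕ) % M = 2) → (x : ℕ) ≠ 1 → u x = x := by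
    intro x hx hx1
    rw [hux]
    suffices h : t (s x) = s x by
      rw [h, ss]
      apply vt
      · omega
      · omega
    by_cases h0 : (x : ℕ) % k = 0
    · have h1 := vs0 x h0
      have h2 : (s x : ℕ) % M = x % M + 1 := by
        have h3 := Nat.div_add_mod (x : ℕ) M
        have h4 : (s x : ℕ) = M * ((x : ℕ) / M) + (x % M + 1) := by omega
        rw [h4, aux_mod (by omega)]
      apply vt
      · omega
      · omega
    · by_cases h1 : (x : ℕ) % k = 1
      · have h2 := vs1 x h1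
        have h3 := Nat.div_add_mod (x : ℕ) M
        have h4 : (s x : ℕ) = M * ((x : ℕ) / M) + (x % M - 1) := by omega
        have h5 : (s x : ℕ) % M = x % M - 1 := by
          rw [h4, aux_mod (by omega)]
        rcases hx with hx | hx
        · -- then `x - 1` is divisible by `M` and by `k`
          exfalso
          have h6 : M ∣ (s x : ℕ) := Nat.dvd_of_mod_eq_zero (by rw [h5, hx])
          have h7 : k ∣ (s x : ℕ) := by
            have h8 := Nat.div_add_mod (x : ℕ) k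
            exact ⟨(x : ℕ) / k, by omega⟩
          have h9 := Nat.lcm_dvd h6 h7
          rw [← hN] at h9
          have h10 : (s x : ℕ) = 0 := Nat.eq_zero_of_dvd_of_lt h9 (s x).2
          omega
        · apply vt
          · omega
          · omega
      · rw [vs x h0 h1]
        apply vt
        · omega
        · omega
  have hne12 : p1 ≠ p2 := fun h => absurd (congrArg Fin.val h) (by norm_num [p1, p2])
  -- decomposition of t'
  have vt' : ∀ x : Fin N, (x : ℕ) % M ≠ 1 → (x : ℕ) % M ≠ 2 → t' x = x := by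
    intro x h1 h2
    apply Fin.ext
    rw [ht', bl_val, swap_apply_of_ne_of_ne]
    · exact Nat.div_add_mod _ _
    · exact fun h => h1 (congrArg Fin.val h)
    · exact fun h => h2 (congrArg Fin.val h)
  have vt'1 : t' p1 = p2 := by
    apply Fin.ext
    rw [ht', bl_val]
    have h1 : (p1 : ℕ) % M = 1 := Nat.mod_eq_of_lt (by omega : 1 < M)
    have h2 : (p1 : ℕ) / M = 0 := Nat.div_eq_of_lt (by omega : 1 < M)
    have : (⟨(p1 : ℕ) % M, Nat.mod_lt _ hM0⟩ : Fin M) = ⟨1, by omega⟩ := Fin.ext h1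
    rw [this, swap_apply_left, h2, mul_zero, zero_add]
  have vt'2 : t' p2 = p1 := by rw [← vt'1, tt']
  set t2 : Perm (Fin N) := swap p1 p2 * t' with ht2
  have hdis : Equiv.Perm.Disjoint u t2 := by
    intro x
    by_cases h1 : (x : ℕ) = 1
    · right
      have : x = p1 := Fin.ext h1
      rw [this, ht2, mul_apply, vt'1, swap_apply_right]
    · by_cases h2 : (x : ℕ) % M = 1 ∨ (x : ℕ) % M = 2
      · exact Or.inl (ufix x h2 h1)
      · right
        push Not at h2
        rw [ht2, mul_apply, vt' x h2.1 h2.2, swap_apply_of_ne_of_ne]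
        · exact fun h => h1 (congrArg Fin.val h)
        · intro h
          apply h2.2
          rw [h]
          exact Nat.mod_eq_of_lt (by omega : 2 < M)
  have hcomm := hdis.commute
  have ht'2 : t' = swap p1 p2 * t2 := by
    rw [ht2, ← mul_assoc, swap_mul_self, one_mul]
  have u2 : u p2 = p2 := by
    apply ufix
    · right
      exact Nat.mod_eq_of_lt (by omega : 2 < M)
    · show (2 : ℕ) ≠ 1
      norm_num
  have hfin : u * t' * u⁻¹ * t' = swap pk1 p2 * swap p1 p2 := by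
    have h1 : u * t' * u⁻¹ = swap pk1 p2 * t2 := by
      rw [ht'2]
      calc u * (swap p1 p2 * t2) * u⁻¹ = (u * swap p1 p2 * u⁻¹) * (u * t2 * u⁻¹) := by group
        _ = swap pk1 p2 * t2 := by
          rw [Equiv.mul_swap_eq_swap_mul, u1, u2, hcomm.eq, mul_inv_cancel_right,
            mul_inv_cancel_right]
    have h2 : t2 * t' = swap p1 p2 := by
      have h3 : t' * t' = 1 := Equiv.ext tt'
      rw [ht2, mul_assoc, h3, mul_one]
    rw [h1, mul_assoc, h2]
  refine ⟨u * t' * u⁻¹ * t', G.mul_mem (G.mul_mem (G.mul_mem huG ht'G) (G.inv_mem huG)) ht'G, ?_⟩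
  rw [hfin, swap_comm pk1 p2, swap_comm p1 p2]
  apply isThreeCycle_swap_mul_swap_same
  · intro h
    have : (2 : ℕ) = k + 1 := congrArg Fin.val h
    omega
  · exact hne12.symm
  · intro h
    have : k + 1 = (1 : ℕ) := congrArg Fin.val h
    omega

end

theorem base_eq : (bl (N := 12) (by decide : 0 < 4) (by decide) (swap 0 3) *
    bl (by decide : 0 < 4) (by decide) (swap 0 1) *
    bl (by decide : 0 < 3) (by decide) (swap 0 2)) ^ 7 = swap (6 : Fin 12) 8 * swap 6 9 := by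
  decide +kernel

/-- The 3-cycle in the case of degree twelve. -/
theorem base_three {G : Subgroup (Perm (Fin 12))} (H4 : Has G 4) (H3 : Has G 3) :
    ∃ g ∈ G, IsThreeCycle g := by
  obtain ⟨h40, h4d, h4G⟩ := H4
  obtain ⟨h30, h3d, h3G⟩ := H3
  have h : (bl h40 h4d (swap 0 3) * bl h40 h4d (swap 0 1) * bl h30 h3d (swap 0 2)) ^ 7 =
      swap (6 : Fin 12) 8 * swap 6 9 := base_eq
  refine ⟨_, G.pow_mem (G.mul_mem (G.mul_mem (h4G (swap 0 3)) (h4G (swap 0 1)))
    (h3G (swap 0 2))) 7, ?_⟩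
  rw [h]
  apply isThreeCycle_swap_mul_swap_same <;> decide

end Q6.ClassTr
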